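import Pool.Agent.Helper78.OD.BsAsm
import Pool.Agent.Helper19.TS.BsBase
import Pool.Agent.Helper8.TS.OL1BsHi

/-!
# The case `OL1Bs` from the lists of its columns
-/

set_option autoImplicit false

namespace Pool.Agent.Helper78.OD

open Pool.Agent.Helper84.TS Pool.Agent.Helper36.TS Pool.Agent.Helper74.TS Pool.Agent.Helper5.TS
open Pool.Agent.Helper83.TS Pool.Agent.Helper78.TS
open Pool.Agent.Helper11.TS.OL1Bs
open Pool.Agent.Helper8.TS.OL1Bs (exists_vals gg_ge bmono cyc hiP tot)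

/-- the column `p` with the rows `r`, `s` -/
def HMp : Prop := ∀ x y z : ℝ, 0 ≤ x → x < 3 / 5 → 0 ≤ y → y < 3 / 5 → 0 ≤ z → z < 3 / 5 →
  x + y + z < 9 / 10 →
  ModesC (nr y) (ns z) (krs y z) y z (Wp0 y z) (Wp y z) 0 (gg x y z) 0
    (fun _ _ _ _ _ => True) flA fp fr fs Bpr Bps Brs Bsr

/-- the column `r` with the rows `p`, `s` -/
def HMr : Prop := ∀ x y z : ℝ, 0 ≤ x → x < 3 / 5 → 0 ≤ y → y < 3 / 5 → 0 ≤ z → z < 3 / 5 →
  x + y + z < 9 / 10 →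
  ModesC (np x) (ns z) (kps x z) x z (Wr0 x z) (Wr x z) 0 (gg x y z) 0
    (fun _ _ _ _ _ => True) flA fr fp fs Brp Brs Bps Bsp

/-- the column `s` with the rows `p`, `r`, the witness is of kind B on `p` -/
def HMs : Prop := ∀ x y z : ℝ, 0 ≤ x → x < 3 / 5 → 0 ≤ y → y < 3 / 5 → 0 ≤ z → z < 3 / 5 →
  x + y + z < 9 / 10 →
  ModesC (np x) (nr y - kpr x y) 0 x y (Ws x y) (Ws x y) (sg x) (gg x y z) 0
    (fun _ A _ u _ => 1 - A + x < u) flB fs fp fr Bsp Bsr Bpr Brp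

/-- the column `a` -/
def HA : Prop := ∀ x y z : ℝ, 0 ≤ x → x ≤ 3 / 5 → 0 ≤ y → y ≤ 3 / 5 → 0 ≤ z → z ≤ 3 / 5 →
  x + y + z ≤ 9 / 10 →
  Neg.ColN (np x + sg x) (nr y) (ns z) (kpr x y) (kps x z) (krs y z) (kpr x y)
    (kps x z - mps x z) (krs y z - mrs y z) (Wa x y z) x y z

/-- **The case `OL1Bs`.** -/
theorem ol1Bs_of (hMp : HMp) (hMr : HMr) (hMs : HMs) (hA : HA) : OL1Bs := by
  intro A P a p r s C h hn hs hk hr' hs' _ ho
  have n1 : [a, r, p, s].Nodup := by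
    clear * - hn; revert hn; revert a p r s; decide
  have n2 : [a, s, p, r].Nodup := by
    clear * - hn; revert hn; revert a p r s; decide
  have hpr : p ≠ r := by
    clear * - hn; revert hn; revert a p r s; decide
  have hps : p ≠ s := by
    clear * - hn; revert hn; revert a p r s; decide
  have hrs : r ≠ s := by
    clear * - hn; revert hn; revert a p r s; decide
  have ne := nodup_ne hn
  unfold Hsm at hs
  have p0 := ht0 h hn
  have r0 := ht0 h n1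
  have s0 := ht0 h n2
  have p1 := h.hd p ne.1
  have r1 := h.hd r ne.2.1
  have s1 := h.hd s ne.2.2
  obtain ⟨φ, B, V⟩ := exists_vals hpr hps hrs
  have Mp := hMp _ _ _ p0 p1 r0 r1 s0 s1 hs
  have Mr := hMr _ _ _ p0 p1 r0 r1 s0 s1 hs
  have Ms := hMs _ _ _ p0 p1 r0 r1 s0 s1 hs
  rw [← V.hp, ← V.hr, ← V.hs, ← V.pr, ← V.ps, ← V.rs, ← V.sr] at Mp
  rw [← V.hp, ← V.hr, ← V.hs, ← V.rp, ← V.rs, ← V.ps, ← V.sp] at Mr
  rw [← V.hp, ← V.hr, ← V.hs, ← V.sp, ← V.sr, ← V.pr, ← V.rp] at Ms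
  have gge := gg_ge p0 r0 s0
  have K0 : (7479 : ℝ) / 10000 ≤
      Pool.Agent.Helper11.TS.OL1Bs.gg (P p p - 1) (P r r - 1) (P s s - 1) + 0 := by linarith
  exact bs_asm h hn hk hr' hs' ho
    (Pool.Agent.Helper19.TS.Bs.nums p0 p1.le r0 r1.le s0 s1.le) Mp Mr Ms
    (hA _ _ _ p0 p1.le r0 r1.le s0 s1.le hs.le) (bmono hn V) (cyc hn V K0) n2 (hiP hn V K0)
    (tot p0 p1.le r0 r1.le s0 s1.le hs.le)

end Pool.Agent.Helper78.OD
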