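import Pool.Agent.Helper78.TS.PieceC
import Pool.Agent.Helper78.TS.MNeg
import Pool.Agent.Helper74.TS.KindB

/-!
# The case `OL1Bs` from its lists of polynomial inequalities

The witness cell `C = (a; s)` is of kind B on `p`, the order of the entries of `p` and `r` in the
column `s` is known. The numbers are those of the heights of the rows.
-/

set_option autoImplicit false

namespace Pool.Agent.Helper78.OD

open Pool.Agent.Helper84.TS Pool.Agent.Helper36.TS Pool.Agent.Helper74.TS Pool.Agent.Helper5.TS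
open Pool.Agent.Helper83.TS Pool.Agent.Helper78.TS Pool.Agent.Helper8.TS

theorem ups_true (X : ℝ) : Ups (fun _ _ => True) X :=
  ⟨fun _ _ _ _ => trivial, fun _ _ _ _ => trivial⟩

/-- the height of a row -/
theorem ht0 {A : Fin 4 → Fin 4 → Option (Fin 4 → ℝ)} {P : Fin 4 → Fin 4 → ℝ}
    {a x y z : Fin 4} (h : OLB A P a) (hn : [a, x, y, z].Nodup) : 0 ≤ P x x - 1 :=
  h.d0 (nodup_ne hn).1

/-- the order of the entries is known: the multiplier of the pair goes to the row `y` -/
theorem gz_ord' {A : Fin 4 → Fin 4 → Option (Fin 4 → ℝ)} {P : Fin 4 → Fin 4 → ℝ}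
    {a z x y : Fin 4} {nx ny k K W s : ℝ} (h : -P y z ≤ -P x z) :
    gz A P a z x y nx (ny - k) 0 K W s = gz A P a z x y nx ny k K W s := by
  unfold gz cv
  rw [min_eq_right h, sx_sub]
  ring

/-- one multiplier of a row is shifted to the bound -/
theorem colI_shift' {A : Fin 4 → Fin 4 → Option (Fin 4 → ℝ)} {P : Fin 4 → Fin 4 → ℝ}
    {m a b c : Fin 4} {na nb nc kab kac kbc Lab Lac Lbc W s : ℝ}
    (h : ColI A P m a b c (na + s) nb nc kab kac kbc Lab Lac Lbc W) :
    ColI A P m a b c na nb nc kab kac kbc Lab Lac Lbc (W - s * -P a m) := by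
  unfold ColI at *
  have e : sx (na + s) (P a a - 1) (-P a m) = sx na (P a a - 1) (-P a m) + s * -P a m := by
    have := sx_sub na (-s) (P a a - 1) (-P a m)
    rw [sub_neg_eq_add] at this
    rw [this]
    ring
  rw [e] at h
  linarith

/-- **The numbers of the columns `p`, `r`, `s`** for the heights `X`, `Y`, `Z` of the rows `p`, `r`,
`s`; `k`: the multipliers of the pairs, `m`: their shares, `W0`: the bound without the cell of the low
class. -/
structure Nums (np nr ns kpr kps krs mps mrs Wp Wr Wp0 Wr0 sg g X Y Z : ℝ) : Prop where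
  kpr0 : 0 ≤ kpr
  kps0 : 0 ≤ kps
  krs0 : 0 ≤ krs
  mps0 : 0 ≤ mps
  mrs0 : 0 ≤ mrs
  sg0 : 0 ≤ sg
  g0 : 0 ≤ g
  pr : SideW (nr - krs) Y
  ps : SideW (ns - krs) Z
  rp : SideW (np - kps) X
  rs : SideW (ns - kps) Z
  sp : SideW np X
  sr : SideW (nr - kpr) Y
  wp : Wp0 ≤ Wp
  wr : Wr0 ≤ Wr
  bp : ∀ Q, Base1 nr ns krs mrs Y Z Wp0 Q
  bp' : ∀ Q, Base1 ns nr krs mrs Z Y Wp0 Q
  br : ∀ Q, Base1 np ns kps mps X Z Wr0 Q
  br' : ∀ Q, Base1 ns np kps mps Z X Wr0 Q

/-- **The case `OL1Bs`, for the numbers of given heights.** -/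
theorem bs_asm {A : Fin 4 → Fin 4 → Option (Fin 4 → ℝ)} {P : Fin 4 → Fin 4 → ℝ}
    {a p r s : Fin 4} {C : Fin 4 → ℝ} (h : OLB A P a) (hn : [a, p, r, s].Nodup)
    (hk : KB A P a s p r C) (hr' : ¬ InS A P a r) (hs' : ¬ InS A P a s)
    (ho : -P r s ≤ -P p s) {np nr ns kpr kps krs mps mrs Wp Wr Ws Wp0 Wr0 Wa sg g T : ℝ}
    {φ : Fin 4 → ℝ → ℝ} {B : Fin 4 → Fin 4 → ℝ → ℝ → ℝ}
    (N : Nums np nr ns kpr kps krs mps mrs Wp Wr Wp0 Wr0 sg g (P p p - 1) (P r r - 1)
      (P s s - 1))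
    (Mp : ModesC nr ns krs (P r r - 1) (P s s - 1) Wp0 Wp 0 g 0 (fun _ _ _ _ _ => True) flA
      (φ p) (φ r) (φ s) (B p r) (B p s) (B r s) (B s r))
    (Mr : ModesC np ns kps (P p p - 1) (P s s - 1) Wr0 Wr 0 g 0 (fun _ _ _ _ _ => True) flA
      (φ r) (φ p) (φ s) (B r p) (B r s) (B p s) (B s p))
    (Ms : ModesC np (nr - kpr) 0 (P p p - 1) (P r r - 1) Ws Ws sg g 0
      (fun _ α _ u _ => 1 - α + (P p p - 1) < u) flB (φ s) (φ p) (φ r) (B s p) (B s r)
      (B p r) (B r p))
    (HA : Neg.ColN (np + sg) nr ns kpr kps krs kpr (kps - mps) (krs - mrs) Wa (P p p - 1)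
      (P r r - 1) (P s s - 1))
    (bmono : ∀ z y, z ≠ a → y ≠ a → z ≠ y → ∀ s t c : ℝ, 0 ≤ s → s ≤ t → t ≤ 1 → 0 ≤ c →
      c ≤ 1 → B z y s c ≤ B z y t c)
    (cyc : ∀ z y x, [a, z, y, x].Nodup → ∀ p q r : ℝ, 0 ≤ p → p ≤ 1 → 0 ≤ q → q ≤ 1 → 0 ≤ r →
      r ≤ 1 → B z y p q + B y x q r + B x z r p ≤ g + 0)
    {z₁ z₂ z₃ : Fin 4} (hz : [a, z₁, z₂, z₃].Nodup) (H : HiP φ B a z₁ z₂ z₃ (g + 0))
    (tot : rowc np (P p p - 1) + rowc nr (P r r - 1) + rowc ns (P s s - 1)
      + kpr * ((P p p - 1) + (P r r - 1)) + kps * ((P p p - 1) + (P s s - 1))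
      + krs * ((P r r - 1) + (P s s - 1)) + Wa + Wp + Wr + Ws + g ≤ T) :
    ∑ i, VV A i ≤ T := by
  have n1 : [a, r, p, s].Nodup := by
    clear * - hn; revert hn; revert a p r s; decide
  have n2 : [a, s, p, r].Nodup := by
    clear * - hn; revert hn; revert a p r s; decide
  have n3 : [a, p, s, r].Nodup := by
    clear * - hn; revert hn; revert a p r s; decide
  have n4 : [a, r, s, p].Nodup := by
    clear * - hn; revert hn; revert a p r s; decide
  have n5 : [a, s, r, p].Nodup := by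
    clear * - hn; revert hn; revert a p r s; decide
  have ne := nodup_ne hn
  have p1 := h.hd p ne.1
  have r1 := h.hd r ne.2.1
  have s1 := h.hd s ne.2.2
  have ca := Neg.multi ⟨h.of, hn, h.mn p ne.1, h.mn r ne.2.1, h.mn s ne.2.2, p1, r1, s1,
    fun q F hq hF => h.hw q a F hq hq.symm hF⟩ HA
  -- the column `p`
  have Ep : ColE A P a p r s nr ns krs mrs Wp0 Wp (fun _ _ => True)
      (fun _ _ _ _ _ => True) flA := by
    refine ⟨N.krs0, N.mrs0, N.pr, N.ps, fun _ => ⟨⟨N.krs0, N.mrs0, N.pr, N.ps, ups_true _,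
      ups_true _, N.bp _, N.bp' _⟩, trivial, N.wp⟩,
      fun t => absurd trivial t, fun _ _ _ => ups_true _, fun _ _ _ => ups_true _,
      fun _ _ _ => trivial, ?_, ?_, fun _ _ t => t.elim, fun _ _ t => t.elim⟩
    · intro D hD hd _
      exact notInS hr' hn hD hd
    · intro D hD hd _
      exact notInS hs' n3 hD hd
  -- the column `r`
  have Er : ColE A P a r p s np ns kps mps Wr0 Wr (fun _ _ => True)
      (fun _ _ _ _ _ => True) flA := by
    refine ⟨N.kps0, N.mps0, N.rp, N.rs, fun _ => ⟨⟨N.kps0, N.mps0, N.rp, N.rs, ups_true _,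
      ups_true _, N.br _, N.br' _⟩, trivial, N.wr⟩,
      fun t => absurd trivial t, fun _ _ _ => ups_true _, fun _ _ _ => ups_true _,
      fun _ _ _ => trivial, ?_, ?_, fun _ _ t => t.elim, fun _ _ t => t.elim⟩
    · intro D hD hd _
      exact hk.vb.other h hD
    · intro D hD hd _
      exact notInS hs' n4 hD hd
  -- the column `s`
  have Es : ColE A P a s p r np (nr - kpr) 0 0 Ws Ws (fun _ _ => True)
      (fun _ α _ u _ => 1 - α + (P p p - 1) < u) flB := by
    have sx := N.sp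
    have sy := N.sr
    refine ⟨le_rfl, le_rfl, by unfold SideW at *; linarith, by unfold SideW at *; linarith,
      fun t => t.elim,
      fun _ => ⟨C, hk.hC, hk.hd⟩, fun _ _ _ => ⟨?_, ?_⟩, fun _ _ _ => ⟨?_, ?_⟩, ?_,
      fun _ _ _ t => t.elim, ?_, fun _ _ t => t.elim, ?_⟩
    · intro u v h1 h2
      linarith
    · intro u v h1 h2
      linarith
    · intro u v h1 _
      exact h1
    · intro u v h1 _
      exact h1
    · intro D hD _
      have e : D = C := by
        have := hk.hC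
        rw [this] at hD
        exact (Option.some.inj hD).symm
      subst e
      have := hk.cap
      linarith
    · intro D hD hd _
      exact notInS hr' n5 hD hd
    · intro D hD _
      have e : D = C := by
        have := hk.hC
        rw [this] at hD
        exact (Option.some.inj hD).symm
      subst e
      exact hk.vb.row h
  have Gp := colG_ofC (φ := φ) (B := B) (s := 0) (g := g) (τ := 0) h hn Ep Mp
  have Gr := colG_ofC (φ := φ) (B := B) (s := 0) (g := g) (τ := 0) h n1 Er Mr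
  have Gs := colG_ofC (φ := φ) (B := B) (s := sg) (g := g) (τ := 0) h n2 Es Ms
  rw [gz_ord' ho] at Gs
  have ca' := colI_shift' ca
  have out := hk.out h
  have g0 := N.g0
  refine pieceC (lpr := kpr) (lps := kps - mps) (lrs := krs - mrs) (Wa := Wa) (tp := 0)
    (tr := 0) (ts := sg * -P p a) h hn Gp Gr Gs le_rfl (by linarith)
    bmono cyc hz H (by simp) (by simp) ?_ ?_ (by linarith)
    (by linarith) (by linarith) ?_
  · rw [hk.hC]
    simp only [rd]
    exact mul_le_mul_of_nonneg_left (by linarith) N.sg0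
  · have e : Wa - 0 - 0 - sg * -P p a = Wa - sg * -P p a := by ring
    rw [e]
    exact ca'
  · linarith

end Pool.Agent.Helper78.OD
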