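import Pool.Agent.Helper78.OD.BsTwo
import Pool.Agent.Helper70.OS.Out

/-!
# The case `OL1Bs`
-/

namespace Pool.Agent.Helper78.OD

open Pool.Agent.Helper74.TS

/-- **The case `OL1Bs`.** -/
theorem ol1Bs : OL1Bs :=
  ol1Bs_of_two Pool.Agent.Helper70.OS.hmp Pool.Agent.Helper70.OS.hmr

end Pool.Agent.Helper78.OD
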