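import Pool.Agent.Helper78.OD.BsOf
import Pool.Agent.Helper19.TS.BsS
import Pool.Agent.Helper36.TZ.BsA

/-!
# The case `OL1Bs` from the two columns `p` and `r`
-/

namespace Pool.Agent.Helper78.OD

open Pool.Agent.Helper74.TS

/-- the column `a` -/
theorem ha : HA := fun _ _ _ x0 x1 y0 y1 z0 z1 hs =>
  Pool.Agent.Helper36.TZ.Bs.colN x0 x1 y0 y1 z0 z1 hs

/-- **The case `OL1Bs`** from the columns `p` and `r`. -/
theorem ol1Bs_of_two (hMp : HMp) (hMr : HMr) : OL1Bs :=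
  ol1Bs_of hMp hMr Pool.Agent.Helper19.TS.Bs.hms ha

end Pool.Agent.Helper78.OD
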